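import Pool.Agent.Helper19.WZ.Conv

/-!
# W+: the converse from the values at rational points with fixed denominators

`zf_of_rat`: if for every `q` and `ε` the sums at the points `k/q` are at most `C N^(a + ε)`, `C = C(q, ε)`, then no Dirichlet
L-function vanishes in `Re s > a`. The proof is the one of `zf_of_bound` (helper19).
-/

set_option autoImplicit false

namespace Pool.Agent.Helper88.WP

open Complex DirichletCharacter Pool.Helper19.V4 Pool.Helper19.WZ

/-- bounds for the exponential sums at the points `k/q` bound the sums with characters mod `q` -/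
private lemma char_sum88 {q : ℕ} [NeZero q] (χ : DirichletCharacter ℂ q) {C b : ℝ}
    (h : ∀ N : ℕ, 1 ≤ N → ∀ k : ℕ, ‖FM N ((k : ℝ) / (q : ℝ))‖ ≤ C * (N : ℝ) ^ b) {N : ℕ} (hN : 1 ≤ N) :
    ‖∑ n ∈ Finset.Icc 1 N, mc χ n‖ ≤ q * C * (N : ℝ) ^ b := by
  obtain ⟨c, hc, hχ⟩ := char_add χ
  have h1 : ∑ n ∈ Finset.Icc 1 N, mc χ n = ∑ k : ZMod q, c k * FM N ((k.val : ℝ) / (q : ℝ)) := by
    unfold mc FM
    simp_rw [hχ, Finset.mul_sum]
    rw [Finset.sum_comm]
    refine Finset.sum_congr rfl fun k _ => Finset.sum_congr rfl fun n _ => ?_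
    ring
  rw [h1]
  refine (norm_sum_le _ _).trans ?_
  calc ∑ k : ZMod q, ‖c k * FM N ((k.val : ℝ) / (q : ℝ))‖ ≤ ∑ _k : ZMod q, C * (N : ℝ) ^ b := by
        refine Finset.sum_le_sum fun k _ => ?_
        rw [norm_mul]
        calc ‖c k‖ * ‖FM N ((k.val : ℝ) / (q : ℝ))‖ ≤ 1 * ‖FM N ((k.val : ℝ) / (q : ℝ))‖ :=
              mul_le_mul_of_nonneg_right (hc k) (norm_nonneg _)
          _ ≤ C * (N : ℝ) ^ b := by rw [one_mul]; exact h N hN _
    _ = q * C * (N : ℝ) ^ b := by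
        rw [Finset.sum_const, Finset.card_univ, ZMod.card, nsmul_eq_mul]
        ring

/-- **Bounds for the Moebius exponential sums at rational points give a half plane without zeros.** -/
theorem zf_of_rat {a : ℝ} (ha0 : 0 ≤ a) (h : ∀ ε : ℝ, 0 < ε → ∀ q : ℕ, 1 ≤ q → ∃ C : ℝ, ∀ N : ℕ, 1 ≤ N → ∀ k : ℕ,
    ‖FM N ((k : ℝ) / (q : ℝ))‖ ≤ C * (N : ℝ) ^ (a + ε)) : ZF a := by
  intro q _ χ s hs hs1
  rcases le_or_gt 1 s.re with h1 | h1
  · exact LFunction_ne_zero_of_one_le_re χ (Or.inr hs1) h1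
  obtain ⟨ε, hε⟩ : ∃ ε : ℝ, ε = (s.re - a) / 2 := ⟨_, rfl⟩
  have hε0 : 0 < ε := by rw [hε]; linarith
  obtain ⟨C, hC⟩ := h ε hε0 q (Nat.one_le_iff_ne_zero.2 (NeZero.ne q))
  have hC0 : 0 ≤ C := by
    have := hC 1 le_rfl 0
    have h2 := (norm_nonneg _).trans this
    simpa using h2
  have hb : ∀ N : ℕ, 1 ≤ N → ‖∑ k ∈ Finset.Icc 1 N, mc χ k‖ ≤ q * C * (N : ℝ) ^ (a + ε) :=
    fun N hN => char_sum88 χ hC hN
  have hq0 : (0 : ℝ) ≤ q := Nat.cast_nonneg q
  have hsum : ∀ s : ℂ, 1 < s.re → LSeriesSummable (mc χ) s := fun s hs =>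
    LSeriesSummable_of_bounded_of_one_lt_re (m := 1) (fun n _ => norm_mc_le χ n) hs
  have hmu : ∀ s : ℂ, 1 < s.re → LFunction χ s * LSeries (mc χ) s = 1 := by
    intro s hs
    have h1 := LSeries.mul_mu_eq_one χ hs
    rw [LFunction_eq_LSeries χ hs, ← h1]
    congr 1
    refine LSeries_congr (fun {n} _ => ?_) s
    simp only [mc, Pi.mul_apply]
    ring
  by_cases hχ : χ = 1
  · have key := continue_rel (f := mc χ) (b := a + ε) (C := q * C) (by positivity) (by linarith) (by linarith) hb hsum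
      (Λ := LFunctionTrivChar₁ q) (p := fun s => s - 1) (differentiable_LFunctionTrivChar₁ q) (by fun_prop)
      (fun z hz => by
        have hz1 : z ≠ 1 := by
          rintro rfl
          simp at hz
        have h2 := hmu z hz
        rw [LFunctionTrivChar₁, Function.update_of_ne hz1]
        have h3 : (z - 1) * LFunctionTrivChar q z * LSeries (mc χ) z = (z - 1) * (LFunction χ z * LSeries (mc χ) z) := by
          rw [hχ, LFunctionTrivChar]
          ring
        rw [h3, h2, mul_one]) (s := s) (by rw [hε]; linarith)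
    intro h0
    rw [LFunctionTrivChar₁, Function.update_of_ne hs1] at key
    have h2 : LFunctionTrivChar q s = 0 := by
      rw [LFunctionTrivChar, ← hχ]
      exact h0
    rw [h2, mul_zero, zero_mul] at key
    exact sub_ne_zero.2 hs1 key.symm
  · have key := continue_rel (f := mc χ) (b := a + ε) (C := q * C) (by positivity) (by linarith) (by linarith) hb hsum
      (Λ := LFunction χ) (p := fun _ => 1) (differentiable_LFunction hχ) (by fun_prop) hmu (s := s)
      (by rw [hε]; linarith)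
    intro h0
    rw [h0, zero_mul] at key
    exact one_ne_zero key.symm

/-- the converse for the bound of the hand-in, every exponent `a ≥ 1/2` -/
theorem zf_of_B {a : ℝ} (ha : 1 / 2 ≤ a) (h : ∀ ε : ℝ, 0 < ε → ∃ C : ℝ, ∀ (N : ℕ) (x : ℝ) (b : ℤ) (q : ℕ), 1 ≤ N → 1 ≤ q →
    IsCoprime b (q : ℤ) → |x - b / q| ≤ 1 / (q : ℝ) ^ 2 →
      ‖FM N x‖ ≤ C * (N : ℝ) ^ ε * (min (N / Real.sqrt q + (N : ℝ) ^ (43 / 54 : ℝ)) ((N : ℝ) ^ a) + Real.sqrt (q * N))) :
    ZF a := by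
  refine zf_of_rat (by linarith) fun ε hε q hq => ?_
  obtain ⟨C, hC⟩ := h ε hε
  refine ⟨|C| * (1 + Real.sqrt q), fun N hN k => ?_⟩
  obtain ⟨s, hs⟩ : ∃ s : ℚ, s = (k : ℚ) / (q : ℚ) := ⟨_, rfl⟩
  have hx : ((k : ℝ) / (q : ℝ)) = (s.num : ℝ) / (s.den : ℝ) := by
    have h1 : ((s : ℚ) : ℝ) = (s.num : ℝ) / (s.den : ℝ) := by
      exact_mod_cast congrArg (fun t : ℚ => (t : ℝ)) (Rat.num_div_den s).symm
    rw [← h1, hs]
    push_cast
    rfl
  have hN1 : (1 : ℝ) ≤ N := by exact_mod_cast hN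
  have hN0 : (0 : ℝ) < N := by linarith
  have hcop : IsCoprime s.num (s.den : ℤ) := by
    rw [Int.isCoprime_iff_gcd_eq_one]
    have := s.reduced
    rwa [Nat.coprime_iff_gcd_eq_one] at this
  have hden : (s.den : ℝ) ≤ q := by
    have h1 : (s.den : ℤ) ∣ (q : ℤ) := by
      have h0 := Rat.den_dvd (k : ℤ) (q : ℤ)
      have h3 : Rat.divInt (k : ℤ) (q : ℤ) = s := by
        rw [hs, Rat.divInt_eq_div]
        push_cast
        rfl
      rwa [h3] at h0
    have h2 : s.den ≤ q := Nat.le_of_dvd (by omega) (by exact_mod_cast h1)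
    exact_mod_cast h2
  have key := hC N ((k : ℝ) / (q : ℝ)) s.num s.den hN s.den_pos hcop (by rw [hx]; simp)
  refine key.trans ?_
  have e1 : min (N / Real.sqrt s.den + (N : ℝ) ^ (43 / 54 : ℝ)) ((N : ℝ) ^ a) ≤ (N : ℝ) ^ a := min_le_right _ _
  have e2 : Real.sqrt (s.den * N) ≤ Real.sqrt q * (N : ℝ) ^ a := by
    rw [Real.sqrt_mul (Nat.cast_nonneg _)]
    have e3 : Real.sqrt N ≤ (N : ℝ) ^ a := by
      rw [Real.sqrt_eq_rpow]
      exact Real.rpow_le_rpow_of_exponent_le hN1 ha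
    have e4 : Real.sqrt s.den ≤ Real.sqrt q := Real.sqrt_le_sqrt hden
    exact mul_le_mul e4 e3 (Real.sqrt_nonneg _) (Real.sqrt_nonneg _)
  have e5 : 0 ≤ min (N / Real.sqrt s.den + (N : ℝ) ^ (43 / 54 : ℝ)) ((N : ℝ) ^ a) + Real.sqrt (s.den * N) := by
    have : 0 ≤ min (N / Real.sqrt s.den + (N : ℝ) ^ (43 / 54 : ℝ)) ((N : ℝ) ^ a) := le_min (by positivity) (by positivity)
    positivity
  calc C * (N : ℝ) ^ ε * (min (N / Real.sqrt s.den + (N : ℝ) ^ (43 / 54 : ℝ)) ((N : ℝ) ^ a) + Real.sqrt (s.den * N)) ≤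
        |C| * (N : ℝ) ^ ε * (min (N / Real.sqrt s.den + (N : ℝ) ^ (43 / 54 : ℝ)) ((N : ℝ) ^ a) + Real.sqrt (s.den * N)) := by
        apply mul_le_mul_of_nonneg_right _ e5
        exact mul_le_mul_of_nonneg_right (le_abs_self C) (by positivity)
    _ ≤ |C| * (N : ℝ) ^ ε * ((N : ℝ) ^ a + Real.sqrt q * (N : ℝ) ^ a) := by
        apply mul_le_mul_of_nonneg_left _ (by positivity)
        linarith
    _ = |C| * (1 + Real.sqrt q) * (N : ℝ) ^ (a + ε) := by
        rw [Real.rpow_add hN0]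
        ring

end Pool.Agent.Helper88.WP
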