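import Pool.Agent.Helper88.WP.PLr
import Pool.Agent.Helper88.WP.FSr
import Pool.Agent.Helper88.WP.Fac
import Pool.Agent.Helper19.WZ.W3
import Pool.Agent.Helper5.WB.MBp
import Pool.Agent.Helper62.M4.M4D

/-!
# W+: the bound for the Moebius sums from a zero free half plane (from `LVr`)
-/

set_option autoImplicit false

namespace Pool.Agent.Helper88.WP

open Finset
open Pool.Helper5.WB
open Pool.Helper19.V4
open Pool.Agent.Helper25.WL (LVr FGr FSr)

/-- large values of a general factor, Ingham's exponent -/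
theorem fgr {g0 : ℝ} (h0 : 0 ≤ g0) : FGr rI g0 := by
  intro ε hε
  obtain ⟨C, hC, h⟩ := factor_ing hε
  exact ⟨C, hC, fun N r _ T M hN hT hrT hM hM2 c hc s hs W hW g hg hg2 hl =>
    h N r T M hN hT hrT hM hM2 c hc s hs W hW g (h0.trans hg) hg2 hl⟩

/-- large values of a smooth factor, Ingham's exponent -/
theorem fsrI {g0 : ℝ} (h0 : 0 ≤ g0) : FSr rI g0 :=
  fsr (fun _ h1 h2 => two_le_rI (h0.trans h1) h2) Pool.Agent.Helper62.M4.m4D

/-- **W+**, from the large value estimate for `Mt`. -/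
theorem wplus_of {a : ℝ} (ha : 1 / 2 ≤ a) (ha1 : a ≤ 31 / 40) (hL : LVr rI (1 - a)) (hZ : Pool.Helper19.WZ.ZF a) :
    ∀ ε : ℝ, 0 < ε → ∃ C : ℝ, 0 < C ∧ ∀ N : ℕ, 1 ≤ N → ∀ x : ℝ, ‖FM N x‖ ≤ C * (N : ℝ) ^ (hW a + ε) :=
  Pool.Helper19.WZ.asm34 (le_trans (by norm_num) (hW_ge ha (by linarith)))
    (plr ha ha1 (mb ha (by linarith) hZ) hL)

end Pool.Agent.Helper88.WP
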