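import Pool.Agent.Helper88.WP.Main0
import Pool.Agent.Helper5.WB.LVR
import Pool.Agent.Helper5.WB.Box

/-!
# W+: the bound for the Moebius sums from a zero free half plane

If no Dirichlet L-function has a zero in `Re s > a`, `1/2 ≤ a ≤ 31/40`, then `∑_{n ≤ N} μ(n) e(n x) ≪ N^(h(a) + ε)` uniformly in `x`,
`h(a) = 3/4 + (1-a)(2a-1)/(2(2-a))`.
-/

set_option autoImplicit false

namespace Pool.Agent.Helper88.WP

open Finset
open Pool.Helper5.WB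
open Pool.Helper19.V4
open Pool.Agent.Helper25.WL (LVr FGr FSr)

/-- large values of `Mt`, Ingham's exponent -/
theorem lvI {g0 : ℝ} (h0 : 0 ≤ g0) : LVr rI g0 :=
  lvr h0 (fun _ h1 h2 => ⟨rI_nonneg (h0.trans h1), (rI_le_one (h0.trans h1) h2).trans (by norm_num)⟩) box (fgr h0) (fsrI h0)

/-- **W+.** -/
theorem ingh {a : ℝ} (ha : 1 / 2 ≤ a) (ha1 : a ≤ 31 / 40) (hZ : Pool.Helper19.WZ.ZF a) :
    ∀ ε : ℝ, 0 < ε → ∃ C : ℝ, 0 < C ∧ ∀ N : ℕ, 1 ≤ N → ∀ x : ℝ, ‖FM N x‖ ≤ C * (N : ℝ) ^ (hW a + ε) :=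
  wplus_of ha ha1 (lvI (by linarith)) hZ

end Pool.Agent.Helper88.WP
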