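import Pool.Agent.Helper19.WZ.PLR
import Pool.Agent.Helper25.WL.Gen

/-!
# W+: the sum over all cells, from a zero free half plane

`plr`: for `1/2 ≤ a ≤ 31/40`, `MB a` and `LVr (3g/(1+g)) (1-a)` give `PLR (1/2) (h a)`, `h a = 3/4 + (1-a)(2a-1)/(2(2-a))`.
Adapted from `Helper5/WB/PLc.lean` (helper49).
-/

set_option autoImplicit false

namespace Pool.Agent.Helper88.WP

open ArithmeticFunction Finset
open Pool.Helper5.WB
open Pool.Agent.Helper25.WL (LVr)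

/-- the exponent of the Moebius sums when no L-function vanishes in `Re s > a` -/
noncomputable def hW (a : ℝ) : ℝ := 3 / 4 + (1 - a) * (2 * a - 1) / (2 * (2 - a))

/-- Ingham's exponent -/
noncomputable def rI (g : ℝ) : ℝ := 3 * g / (1 + g)

lemma hW_eq {a : ℝ} (ha : a ≤ 1) : hW a = 3 / 4 - (1 - a) + rI (1 - a) / 2 := by
  unfold hW rI
  have h1 : (2 - a) ≠ 0 := by intro h; linarith
  have h2 : (1 + (1 - a)) ≠ 0 := by intro h; linarith
  have h3 : 1 + (1 - a) = 2 - a := by ring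
  rw [h3]
  field_simp
  ring

lemma rI_mono {g0 g : ℝ} (h0 : 9 / 40 ≤ g0) (h : g0 ≤ g) : 3 / 4 - g + rI g / 2 ≤ 3 / 4 - g0 + rI g0 / 2 := by
  have h1 : 0 < 1 + g := by linarith
  have h2 : 0 < 1 + g0 := by linarith
  have h3 : 3 / 4 - g0 + rI g0 / 2 - (3 / 4 - g + rI g / 2) =
      (g - g0) * ((1 + g) * (1 + g0) - 3 / 2) / ((1 + g) * (1 + g0)) := by
    unfold rI
    field_simp
    ring
  have h4 : 0 ≤ (1 + g) * (1 + g0) - 3 / 2 := by nlinarith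
  have h5 : 0 ≤ (g - g0) * ((1 + g) * (1 + g0) - 3 / 2) / ((1 + g) * (1 + g0)) := by
    have : 0 ≤ g - g0 := by linarith
    positivity
  linarith

lemma rI_half {g : ℝ} (h : 9 / 40 ≤ g) : 1 / 2 ≤ rI g := by
  unfold rI
  rw [div_le_div_iff₀ (by norm_num) (by linarith)]
  linarith

lemma rI_le_one {g : ℝ} (h0 : 0 ≤ g) (h : g ≤ 1 / 2) : rI g ≤ 1 := by
  unfold rI
  rw [div_le_one (by linarith)]
  linarith

lemma rI_nonneg {g : ℝ} (h0 : 0 ≤ g) : 0 ≤ rI g := by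
  unfold rI
  positivity

lemma two_le_rI {g : ℝ} (h0 : 0 ≤ g) (h : g ≤ 1 / 2) : 2 * g ≤ rI g := by
  unfold rI
  rw [le_div_iff₀ (by linarith)]
  nlinarith

lemma hW_ge {a : ℝ} (h1 : 1 / 2 ≤ a) (h2 : a ≤ 1) : 3 / 4 ≤ hW a := by
  unfold hW
  have h3 : 0 ≤ (1 - a) * (2 * a - 1) / (2 * (2 - a)) := by
    apply div_nonneg
    · apply mul_nonneg <;> linarith
    · linarith
  linarith

lemma hW_ge_self {a : ℝ} (h1 : 1 / 2 ≤ a) (h2 : a ≤ 31 / 40) : a ≤ hW a := by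
  unfold hW
  have h3 : 0 < 2 * (2 - a) := by linarith
  have h4 : a - 3 / 4 ≤ (1 - a) * (2 * a - 1) / (2 * (2 - a)) := by
    rw [le_div_iff₀ h3]
    nlinarith
  linarith

/-- the grid -/
private noncomputable def gj88 (g0 ε : ℝ) (j : ℕ) : ℝ := min (1 / 2) (g0 + j * ε)

private lemma gj_mem88 {g0 ε : ℝ} (h0 : g0 ≤ 1 / 2) (hε : 0 < ε) (j : ℕ) : g0 ≤ gj88 g0 ε j ∧ gj88 g0 ε j ≤ 1 / 2 := by
  unfold gj88
  refine ⟨le_min h0 ?_, min_le_left _ _⟩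
  have : 0 ≤ (j : ℝ) * ε := by positivity
  linarith

/-- the position of a value in the grid -/
private lemma grid88 {g0 ε M x : ℝ} (hε : 0 < ε) (hM : 1 ≤ M) (h1 : M ^ (1 / 2 + ε) ≤ x)
    (h2 : x < M ^ (1 - g0 + ε)) : ∃ j ∈ range (⌈(1 / 2 - g0 : ℝ) / ε⌉₊ + 1),
      M ^ (1 - gj88 g0 ε j + ε) ≤ x ∧ x ≤ M ^ (1 - gj88 g0 ε j + 2 * ε) := by
  have hM0 : 0 < M := by linarith
  have hM1 : 1 < M := by
    rcases hM.eq_or_lt with h | h
    · rw [← h, Real.one_rpow] at h1 h2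
      linarith
    · exact h
  have hx : 0 < x := lt_of_lt_of_le (Real.rpow_pos_of_pos hM0 _) h1
  obtain ⟨y, hy⟩ : ∃ y : ℝ, y = Real.logb M x := ⟨_, rfl⟩
  have hxy : M ^ y = x := by rw [hy]; exact Real.rpow_logb hM0 hM1.ne' hx
  have hy1 : 1 / 2 + ε ≤ y := by
    rw [← hxy] at h1
    exact (Real.rpow_le_rpow_left_iff hM1).1 h1
  have hy2 : y < 1 - g0 + ε := by
    rw [← hxy] at h2
    exact (Real.rpow_lt_rpow_left_iff hM1).1 h2
  obtain ⟨u, hu⟩ : ∃ u : ℝ, u = (1 - g0 + ε - y) / ε := ⟨_, rfl⟩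
  have hu0 : 0 ≤ u := by rw [hu]; exact div_nonneg (by linarith) hε.le
  have hu1 : u ≤ (1 / 2 - g0) / ε := by
    rw [hu]
    exact div_le_div_of_nonneg_right (by linarith) hε.le
  refine ⟨⌈u⌉₊, mem_range.2 (Nat.lt_succ_of_le (Nat.ceil_mono hu1)), ?_⟩
  have hc1 : u ≤ (⌈u⌉₊ : ℝ) := Nat.le_ceil u
  have hc2 : (⌈u⌉₊ : ℝ) < u + 1 := Nat.ceil_lt_add_one hu0
  have hue : u * ε = 1 - g0 + ε - y := by
    rw [hu]
    field_simp
  have hc3 : 1 - g0 + ε - y ≤ (⌈u⌉₊ : ℝ) * ε := by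
    rw [← hue]
    exact mul_le_mul_of_nonneg_right hc1 hε.le
  have hc4 : (⌈u⌉₊ : ℝ) * ε < 1 - g0 + 2 * ε - y := by
    have := mul_lt_mul_of_pos_right hc2 hε
    rw [add_mul, one_mul, hue] at this
    linarith
  have hg1 : 1 + ε - y ≤ gj88 g0 ε ⌈u⌉₊ := by
    unfold gj88
    refine le_min (by linarith) (by linarith)
  have hg2 : gj88 g0 ε ⌈u⌉₊ ≤ g0 + (⌈u⌉₊ : ℝ) * ε := min_le_right _ _
  constructor
  · rw [← hxy]
    exact Real.rpow_le_rpow_of_exponent_le hM (by linarith)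
  · rw [← hxy]
    exact Real.rpow_le_rpow_of_exponent_le hM (by linarith)

/-- the powers of `A = r T` -/
private lemma pow88 {ε M A g h : ℝ} (hε : 0 < ε) (hM : 1 ≤ M) (hA1 : 1 ≤ A) (hA : A ≤ M ^ (1 / 2 + ε))
    (hg1 : 9 / 40 ≤ g) (hg2 : g ≤ 1 / 2) (hh : 3 / 4 - g + rI g / 2 ≤ h) :
    A ^ (rI g) ≤ Real.sqrt A * M ^ (h - (1 - g) + ε) := by
  have hM0 : 0 < M := by linarith
  have hA0 : 0 < A := by linarith
  have hr1 := rI_half hg1
  have hr2 := rI_le_one (by linarith) hg2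
  have h1 : A ^ (rI g) = A ^ (1 / 2 : ℝ) * A ^ (rI g - 1 / 2) := by
    rw [← Real.rpow_add hA0]
    congr 1
    ring
  rw [h1, Real.sqrt_eq_rpow]
  apply mul_le_mul_of_nonneg_left _ (by positivity)
  have h2 : 0 ≤ rI g - 1 / 2 := by linarith
  calc A ^ (rI g - 1 / 2) ≤ (M ^ (1 / 2 + ε)) ^ (rI g - 1 / 2) := Real.rpow_le_rpow hA0.le hA h2
    _ = M ^ ((1 / 2 + ε) * (rI g - 1 / 2)) := by rw [← Real.rpow_mul hM0.le]
    _ ≤ M ^ (h - (1 - g) + ε) := by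
        apply Real.rpow_le_rpow_of_exponent_le hM
        nlinarith

private lemma card_cells88 (r T : ℕ) [NeZero r] (hT : 1 ≤ T) :
    (((univ : Finset (DirichletCharacter ℂ r)) ×ˢ Icc (-(T : ℤ)) T).card : ℝ) ≤ 3 * ((r : ℝ) * T) := by
  rw [card_product, Int.card_Icc]
  have h1 : (univ : Finset (DirichletCharacter ℂ r)).card ≤ r := by
    rw [card_univ, ← Nat.card_eq_fintype_card, DirichletCharacter.card_eq_totient_of_hasEnoughRootsOfUnity]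
    exact Nat.totient_le r
  have h2 : ((T : ℤ) + 1 - -(T : ℤ)).toNat = 2 * T + 1 := by omega
  rw [h2]
  have h3 : (univ : Finset (DirichletCharacter ℂ r)).card * (2 * T + 1) ≤ r * (3 * T) :=
    Nat.mul_le_mul h1 (by omega)
  calc (((univ : Finset (DirichletCharacter ℂ r)).card * (2 * T + 1) : ℕ) : ℝ) ≤ ((r * (3 * T) : ℕ) : ℝ) := by
        exact_mod_cast h3
    _ = 3 * ((r : ℝ) * T) := by
        push_cast
        ring

private lemma card_exc88 {r : ℕ} {y : ℝ} (hy : 1 ≤ y)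
    (E : Finset (DirichletCharacter ℂ r × ℤ)) (hE : ∀ p ∈ E, p.1 = 1 ∧ |(p.2 : ℝ)| ≤ y) : (E.card : ℝ) ≤ 3 * y := by
  classical
  have hsub : E ⊆ ({1} : Finset (DirichletCharacter ℂ r)) ×ˢ Icc (-⌊y⌋) ⌊y⌋ := by
    intro p hp
    obtain ⟨h1, h2⟩ := hE p hp
    rw [abs_le] at h2
    rw [mem_product, mem_singleton, mem_Icc]
    refine ⟨h1, ?_, Int.le_floor.2 h2.2⟩
    have h3 : -p.2 ≤ ⌊y⌋ := Int.le_floor.2 (by push_cast; linarith)
    linarith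
  have h1 := card_le_card hsub
  rw [card_product, card_singleton, one_mul, Int.card_Icc] at h1
  have hf0 : 0 ≤ ⌊y⌋ := Int.floor_nonneg.2 (by linarith)
  have h2 : ((⌊y⌋ + 1 - -⌊y⌋).toNat : ℤ) = 2 * ⌊y⌋ + 1 := by
    rw [Int.toNat_of_nonneg (by linarith)]
    ring
  have h3 : (((⌊y⌋ + 1 - -⌊y⌋).toNat : ℕ) : ℝ) = 2 * (⌊y⌋ : ℝ) + 1 := by exact_mod_cast h2
  have h4 : (⌊y⌋ : ℝ) ≤ y := Int.floor_le y
  calc (E.card : ℝ) ≤ (((⌊y⌋ + 1 - -⌊y⌋).toNat : ℕ) : ℝ) := by exact_mod_cast h1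
    _ = 2 * (⌊y⌋ : ℝ) + 1 := h3
    _ ≤ 3 * y := by linarith

/-- the sizes -/
private lemma size88 {M e a C : ℝ} (hM : 1 ≤ M) (he : 0 < e) (hC : 0 < C) {q : ℕ} (hq : (q : ℝ) ≤ M ^ 2) {t : ℝ} {T : ℕ}
    (ht : |t| ≤ T + 1) (hT : (T : ℝ) + 1 ≤ M) :
    C * ((q : ℝ) * (1 + |t|) * M) ^ (e / 4) * M ^ a ≤ C * 2 ^ (e / 4) * M ^ (a + e) := by
  have hM0 : 0 < M := by linarith
  have h1 : (q : ℝ) * (1 + |t|) * M ≤ 2 * M ^ 4 := by
    have h2 : 1 + |t| ≤ 2 * M := by linarith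
    calc (q : ℝ) * (1 + |t|) * M ≤ M ^ 2 * (2 * M) * M := by
          apply mul_le_mul_of_nonneg_right _ hM0.le
          exact mul_le_mul hq h2 (by positivity) (by positivity)
      _ = 2 * M ^ 4 := by ring
  have h3 : ((q : ℝ) * (1 + |t|) * M) ^ (e / 4) ≤ 2 ^ (e / 4) * M ^ e := by
    calc ((q : ℝ) * (1 + |t|) * M) ^ (e / 4) ≤ (2 * M ^ 4) ^ (e / 4) :=
          Real.rpow_le_rpow (by positivity) h1 (by positivity)
      _ = 2 ^ (e / 4) * M ^ e := by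
          rw [Real.mul_rpow (by norm_num) (by positivity), ← Real.rpow_natCast, ← Real.rpow_mul hM0.le]
          congr 2
          push_cast
          ring
  calc C * ((q : ℝ) * (1 + |t|) * M) ^ (e / 4) * M ^ a ≤ C * (2 ^ (e / 4) * M ^ e) * M ^ a := by gcongr
    _ = C * 2 ^ (e / 4) * (M ^ a * M ^ e) := by ring
    _ = C * 2 ^ (e / 4) * M ^ (a + e) := by rw [← Real.rpow_add hM0]

theorem plr {a : ℝ} (ha : 1 / 2 ≤ a) (ha1 : a ≤ 31 / 40) (hMB : MB a)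
    (h : LVr rI (1 - a)) : Pool.Helper19.WZ.PLR (1 / 2) (hW a) := by
  classical
  intro ε hε hε1
  obtain ⟨C₀, hC₀, hL⟩ := h ε hε
  obtain ⟨C₁, hC₁, hB₁⟩ := hMB (ε / 4) (by positivity)
  obtain ⟨K, hK⟩ : ∃ K : ℕ, K = ⌈(1 / 2 - (1 - a) : ℝ) / ε⌉₊ + 1 := ⟨_, rfl⟩
  obtain ⟨C₂, hC₂⟩ : ∃ C₂ : ℝ, C₂ = C₁ * 2 ^ (ε / 4) := ⟨_, rfl⟩
  have hC₂0 : 0 < C₂ := by rw [hC₂]; positivity
  refine ⟨3 * C₂ + 3 + C₀ * C₂ + K * C₀, by positivity, ?_⟩
  intro q r _ _ hrq T X M hT hM hTM hA hq hX1 hX2 s hs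
  obtain ⟨A, hAdef⟩ : ∃ A : ℝ, A = (r : ℝ) * T := ⟨_, rfl⟩
  rw [← hAdef] at hA ⊢
  have hr1 : (1 : ℝ) ≤ r := by exact_mod_cast Nat.one_le_iff_ne_zero.2 (NeZero.ne r)
  have hT1 : (1 : ℝ) ≤ T := by exact_mod_cast hT
  have hA1 : 1 ≤ A := by rw [hAdef]; nlinarith
  have hA0 : 0 < A := by linarith
  have hM0 : 0 < M := by linarith
  have hAM : (r : ℝ) * T ≤ M := by
    rw [← hAdef]
    refine hA.trans ?_
    calc M ^ (1 / 2 + ε) ≤ M ^ (1 : ℝ) := Real.rpow_le_rpow_of_exponent_le hM (by linarith)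
      _ = M := Real.rpow_one M
  obtain ⟨H, hH⟩ : ∃ H : ℝ, H = hW a := ⟨_, rfl⟩
  have hH34 : 3 / 4 ≤ H := by rw [hH]; exact hW_ge ha (by linarith)
  have hHa : a ≤ H := by rw [hH]; exact hW_ge_self ha ha1
  have hHg : ∀ g, 1 - a ≤ g → 3 / 4 - g + rI g / 2 ≤ H := by
    intro g hg
    rw [hH, hW_eq (by linarith)]
    exact rI_mono (by linarith) hg
  rw [← hH]
  obtain ⟨cells, hcells⟩ : ∃ cells : Finset (DirichletCharacter ℂ r × ℤ),
    cells = (univ : Finset (DirichletCharacter ℂ r)) ×ˢ Icc (-(T : ℤ)) T := ⟨_, rfl⟩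
  rw [← hcells]
  obtain ⟨v, hv⟩ : ∃ v : DirichletCharacter ℂ r × ℤ → ℝ, v = fun p => ‖Mt X M q p.1 (s p)‖ * Real.sqrt M := ⟨_, rfl⟩
  have hgoal : ∑ p ∈ cells, ‖Mt X M q p.1 (s p)‖ * Real.sqrt M = ∑ p ∈ cells, v p := by rw [hv]
  rw [hgoal]
  have hv0 : ∀ p, 0 ≤ v p := fun p => by rw [hv]; positivity
  have hvB : ∀ p ∈ cells, v p ≤ C₂ * M ^ (a + ε) := by
    intro p hp
    rw [hcells, mem_product, mem_Icc] at hp
    have ht : |s p| ≤ (T : ℝ) + 1 := by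
      obtain ⟨h1, h2⟩ := hs p
      have h3 : (-(T : ℝ)) ≤ p.2 := by exact_mod_cast hp.2.1
      have h4 : (p.2 : ℝ) ≤ T := by exact_mod_cast hp.2.2
      rw [abs_le]
      constructor <;> linarith
    rw [hv, hC₂]
    exact (hB₁ q r hrq p.1 (s p) M X hM hX1).trans (size88 hM hε hC₁ hq ht hTM)
  obtain ⟨Ex, hEx⟩ : ∃ Ex : DirichletCharacter ℂ r × ℤ → Prop, Ex = fun p => p.1 = 1 ∧ |(p.2 : ℝ)| ≤ M ^ ε := ⟨_, rfl⟩
  obtain ⟨E, hE⟩ : ∃ E, E = cells.filter Ex := ⟨_, rfl⟩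
  obtain ⟨Na, hNa⟩ : ∃ Na, Na = cells.filter (fun p => v p < M ^ (1 / 2 + ε)) := ⟨_, rfl⟩
  obtain ⟨Nb, hNb⟩ : ∃ Nb, Nb = cells.filter (fun p => ¬ Ex p ∧ M ^ (1 - (1 - a) + ε) ≤ v p) := ⟨_, rfl⟩
  obtain ⟨W, hW'⟩ : ∃ W : ℕ → Finset (DirichletCharacter ℂ r × ℤ), W = fun j => cells.filter
    (fun p => ¬ Ex p ∧ M ^ (1 - gj88 (1 - a) ε j + ε) ≤ v p ∧ v p ≤ M ^ (1 - gj88 (1 - a) ε j + 2 * ε)) := ⟨_, rfl⟩
  have hMe : 1 ≤ M ^ ε := Real.one_le_rpow hM hε.le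
  have hsA : 1 ≤ Real.sqrt A := by rw [Real.one_le_sqrt]; exact hA1
  have hsA0 : 0 ≤ Real.sqrt A := Real.sqrt_nonneg _
  have hMc : 0 < M ^ H := Real.rpow_pos_of_pos hM0 _
  obtain ⟨P, hP⟩ : ∃ P : ℝ, P = M ^ (5 * ε + H) * Real.sqrt A := ⟨_, rfl⟩
  have hP0 : 0 ≤ P := by rw [hP]; positivity
  -- splitting
  have hsplit : ∑ p ∈ cells, v p ≤ ∑ p ∈ E, v p + ∑ p ∈ Na, v p + ∑ p ∈ Nb, v p +
      ∑ j ∈ range K, ∑ p ∈ W j, v p := by
    have h1 : ∀ p ∈ cells, v p ≤ (if Ex p then v p else 0) + (if v p < M ^ (1 / 2 + ε) then v p else 0) +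
        (if ¬ Ex p ∧ M ^ (1 - (1 - a) + ε) ≤ v p then v p else 0) +
        ∑ j ∈ range K, (if ¬ Ex p ∧ M ^ (1 - gj88 (1 - a) ε j + ε) ≤ v p ∧ v p ≤ M ^ (1 - gj88 (1 - a) ε j + 2 * ε)
          then v p else 0) := by
      intro p _
      have hn1 : 0 ≤ (if Ex p then v p else 0) := by split_ifs; exacts [hv0 p, le_rfl]
      have hn2 : 0 ≤ (if v p < M ^ (1 / 2 + ε) then v p else 0) := by split_ifs; exacts [hv0 p, le_rfl]
      have hn3 : 0 ≤ (if ¬ Ex p ∧ M ^ (1 - (1 - a) + ε) ≤ v p then v p else 0) := by split_ifs; exacts [hv0 p, le_rfl]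
      have hn4 : ∀ j ∈ range K, 0 ≤ (if ¬ Ex p ∧ M ^ (1 - gj88 (1 - a) ε j + ε) ≤ v p ∧
          v p ≤ M ^ (1 - gj88 (1 - a) ε j + 2 * ε) then v p else 0) := by
        intro j _
        split_ifs
        exacts [hv0 p, le_rfl]
      have hn5 := sum_nonneg hn4
      by_cases c1 : Ex p
      · rw [if_pos c1] at hn1 ⊢
        linarith
      · by_cases c2 : v p < M ^ (1 / 2 + ε)
        · rw [if_pos c2] at hn2 ⊢
          linarith
        · by_cases c3 : M ^ (1 - (1 - a) + ε) ≤ v p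
          · rw [if_pos (⟨c1, c3⟩ : ¬ Ex p ∧ M ^ (1 - (1 - a) + ε) ≤ v p)] at hn3 ⊢
            linarith
          · push Not at c2 c3
            obtain ⟨j, hj, hj1, hj2⟩ := grid88 hε hM c2 c3
            rw [← hK] at hj
            have h6 := single_le_sum hn4 hj
            rw [if_pos ⟨c1, hj1, hj2⟩] at h6
            linarith
    refine (sum_le_sum h1).trans (le_of_eq ?_)
    rw [sum_add_distrib, sum_add_distrib, sum_add_distrib, sum_comm, ← sum_filter, ← sum_filter, ← sum_filter,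
      ← hE, ← hNa, ← hNb]
    congr 1
    apply sum_congr rfl
    intro j _
    rw [← sum_filter, hW']
  -- exceptional cells
  have hEs : ∑ p ∈ E, v p ≤ 3 * C₂ * P := by
    have h1 : (E.card : ℝ) ≤ 3 * M ^ ε := card_exc88 hMe E fun p hp => by
      rw [hE, mem_filter, hEx] at hp
      exact hp.2
    have h2 : M ^ ε * M ^ (a + ε) ≤ P := by
      rw [hP, ← Real.rpow_add hM0]
      calc M ^ (ε + (a + ε)) ≤ M ^ (5 * ε + H) := Real.rpow_le_rpow_of_exponent_le hM (by linarith)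
        _ ≤ M ^ (5 * ε + H) * Real.sqrt A := le_mul_of_one_le_right (by positivity) hsA
    calc ∑ p ∈ E, v p ≤ ∑ p ∈ E, C₂ * M ^ (a + ε) := sum_le_sum fun p hp => hvB p (by
            rw [hE, mem_filter] at hp
            exact hp.1)
      _ = E.card * (C₂ * M ^ (a + ε)) := by rw [sum_const, nsmul_eq_mul]
      _ ≤ 3 * M ^ ε * (C₂ * M ^ (a + ε)) := mul_le_mul_of_nonneg_right h1 (by positivity)
      _ = 3 * C₂ * (M ^ ε * M ^ (a + ε)) := by ring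
      _ ≤ 3 * C₂ * P := mul_le_mul_of_nonneg_left h2 (by positivity)
  -- small values
  have hNas : ∑ p ∈ Na, v p ≤ 3 * P := by
    have h1 : (Na.card : ℝ) ≤ 3 * A := by
      refine le_trans ?_ (le_trans (card_cells88 r T hT) (by rw [← hAdef]))
      rw [hNa, ← hcells]
      exact_mod_cast card_le_card (filter_subset _ _)
    have h2 : 0 < M ^ (1 / 2 + ε) := Real.rpow_pos_of_pos hM0 _
    have h3 : A = Real.sqrt A * Real.sqrt A := (Real.mul_self_sqrt hA0.le).symm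
    have h4 : Real.sqrt A ≤ M ^ (1 / 4 + ε / 2) := by
      rw [Real.sqrt_eq_rpow]
      calc A ^ (1 / 2 : ℝ) ≤ (M ^ (1 / 2 + ε)) ^ (1 / 2 : ℝ) := Real.rpow_le_rpow hA0.le hA (by norm_num)
        _ = M ^ ((1 / 2 + ε) * (1 / 2)) := by rw [← Real.rpow_mul hM0.le]
        _ = M ^ (1 / 4 + ε / 2) := by
            congr 1
            ring
    calc ∑ p ∈ Na, v p ≤ ∑ p ∈ Na, M ^ (1 / 2 + ε) := sum_le_sum fun p hp => by
            rw [hNa, mem_filter] at hp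
            exact hp.2.le
      _ = Na.card * M ^ (1 / 2 + ε) := by rw [sum_const, nsmul_eq_mul]
      _ ≤ 3 * A * M ^ (1 / 2 + ε) := mul_le_mul_of_nonneg_right h1 h2.le
      _ = 3 * ((Real.sqrt A * M ^ (1 / 2 + ε)) * Real.sqrt A) := by
          nth_rewrite 1 [h3]
          ring
      _ ≤ 3 * P := by
          apply mul_le_mul_of_nonneg_left _ (by norm_num)
          rw [hP]
          apply mul_le_mul_of_nonneg_right _ hsA0
          calc Real.sqrt A * M ^ (1 / 2 + ε) ≤ M ^ (1 / 4 + ε / 2) * M ^ (1 / 2 + ε) :=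
                mul_le_mul_of_nonneg_right h4 h2.le
            _ = M ^ (1 / 4 + ε / 2 + (1 / 2 + ε)) := by rw [← Real.rpow_add hM0]
            _ ≤ M ^ (5 * ε + H) := Real.rpow_le_rpow_of_exponent_le hM (by linarith)
  -- one level
  have hlev : ∀ g : ℝ, 1 - a ≤ g → g ≤ 1 / 2 → ∀ S : Finset (DirichletCharacter ℂ r × ℤ), S ⊆ cells →
      (∀ p ∈ S, ¬ Ex p) → (∀ p ∈ S, M ^ (1 - g + ε) ≤ v p) → ∀ D : ℝ, 0 < D → (∀ p ∈ S, v p ≤ D * M ^ (1 - g + 2 * ε)) →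
      ∑ p ∈ S, v p ≤ C₀ * D * P := by
    intro g hg1 hg2 S hS hS1 hS2 D hD hS3
    have h1 : (S.card : ℝ) ≤ C₀ * M ^ ε * A ^ (rI g) := by
      rw [hAdef]
      refine hL q r hrq T X M hT hM hAM hq hX1 hX2 s hs S (by rw [← hcells]; exact hS)
        (fun p hp => ?_) g hg1 hg2 fun p hp => ?_
      · have := hS1 p hp
        rw [hEx] at this
        exact this
      · have := hS2 p hp
        rw [hv] at this
        exact this
    have h2 := pow88 hε hM hA1 hA (by linarith) hg2 (hHg g hg1)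
    have h3 : 0 < D * M ^ (1 - g + 2 * ε) := by positivity
    have h4 : 0 < C₀ * M ^ ε := by positivity
    calc ∑ p ∈ S, v p ≤ ∑ p ∈ S, D * M ^ (1 - g + 2 * ε) := sum_le_sum hS3
      _ = S.card * (D * M ^ (1 - g + 2 * ε)) := by rw [sum_const, nsmul_eq_mul]
      _ ≤ C₀ * M ^ ε * A ^ (rI g) * (D * M ^ (1 - g + 2 * ε)) := mul_le_mul_of_nonneg_right h1 h3.le
      _ ≤ C₀ * M ^ ε * (Real.sqrt A * M ^ (H - (1 - g) + ε)) * (D * M ^ (1 - g + 2 * ε)) := by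
          apply mul_le_mul_of_nonneg_right _ h3.le
          exact mul_le_mul_of_nonneg_left h2 h4.le
      _ = C₀ * D * ((M ^ ε * M ^ (H - (1 - g) + ε) * M ^ (1 - g + 2 * ε)) * Real.sqrt A) := by ring
      _ = C₀ * D * (M ^ (ε + (H - (1 - g) + ε) + (1 - g + 2 * ε)) * Real.sqrt A) := by
          rw [← Real.rpow_add hM0, ← Real.rpow_add hM0]
      _ ≤ C₀ * D * P := by
          apply mul_le_mul_of_nonneg_left _ (by positivity)
          rw [hP]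
          apply mul_le_mul_of_nonneg_right _ hsA0
          exact Real.rpow_le_rpow_of_exponent_le hM (by linarith)
  -- very large values
  have hNbs : ∑ p ∈ Nb, v p ≤ C₀ * C₂ * P := by
    refine hlev (1 - a) le_rfl (by linarith) Nb (by rw [hNb]; exact filter_subset _ _) (fun p hp => ?_) (fun p hp => ?_)
      C₂ hC₂0 (fun p hp => ?_)
    · rw [hNb, mem_filter] at hp
      exact hp.2.1
    · rw [hNb, mem_filter] at hp
      exact hp.2.2
    · rw [hNb, mem_filter] at hp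
      refine (hvB p hp.1).trans ?_
      apply mul_le_mul_of_nonneg_left _ hC₂0.le
      exact Real.rpow_le_rpow_of_exponent_le hM (by linarith)
  -- the grid
  have hWs : ∀ j ∈ range K, ∑ p ∈ W j, v p ≤ C₀ * P := by
    intro j _
    obtain ⟨hg1, hg2⟩ := gj_mem88 (g0 := 1 - a) (by linarith) hε j
    have h1 := hlev (gj88 (1 - a) ε j) hg1 hg2 (W j) (by rw [hW']; exact filter_subset _ _) (fun p hp => by
        rw [hW', mem_filter] at hp
        exact hp.2.1) (fun p hp => by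
        rw [hW', mem_filter] at hp
        exact hp.2.2.1) 1 one_pos (fun p hp => by
        rw [hW', mem_filter] at hp
        rw [one_mul]
        exact hp.2.2.2)
    rw [mul_one] at h1
    exact h1
  have hWsum : ∑ j ∈ range K, ∑ p ∈ W j, v p ≤ K * (C₀ * P) := by
    refine (sum_le_sum hWs).trans (le_of_eq ?_)
    rw [sum_const, card_range, nsmul_eq_mul]
  have hfin : (3 * C₂ + 3 + C₀ * C₂ + K * C₀) * M ^ (5 * ε) * Real.sqrt A * M ^ H =
      (3 * C₂ + 3 + C₀ * C₂ + K * C₀) * P := by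
    rw [hP, Real.rpow_add hM0]
    ring
  rw [hfin]
  linarith

end Pool.Agent.Helper88.WP
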